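import Pool.Agent.helper23.LT.TD
import Pool.Agent.helper33.LT.DI
import Pool.Agent.helper62.LT.TB
import Pool.Agent.helper96.FT.A2

set_option autoImplicit false

/-! # Module lt:NB -/

namespace Pool.Agent.helper28.LT

open Finset NumberField Pool.Agent.helper3.FT Pool.Agent.helper47.RA

variable {K : Type} [Field K] [NumberField K] {Q : QF K} {κ s f : ℕ}

theorem NB_root (E : El Q κ s f) (hneg : Q.D < 0) :
    29 * (κ : ℝ) ^ 2 * s ^ 3 ≤ √(-Q.D : ℝ) * f := by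
  have h1 := E.tup.D1
  have h2 : (859 : ℝ) * κ ^ 4 * s ^ 6 ≤ -Q.D * (f : ℝ) ^ 2 := by
    have h3 : ((859 * (κ : ℤ) ^ 4 * s ^ 6 : ℤ) : ℝ) ≤ ((-((f : ℤ) ^ 2 * Q.D) : ℤ) : ℝ) := by
      exact_mod_cast h1
    push_cast at h3
    linarith
  have hD : (0 : ℝ) ≤ -Q.D := by
    have : (Q.D : ℝ) < 0 := by exact_mod_cast hneg
    linarith
  have h3 : √(-Q.D : ℝ) * f = √(-Q.D * (f : ℝ) ^ 2) := by
    rw [Real.sqrt_mul hD, Real.sqrt_sq (Nat.cast_nonneg f)]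
  rw [h3]
  apply Real.le_sqrt_of_sq_le
  have h4 : (29 * (κ : ℝ) ^ 2 * s ^ 3) ^ 2 = 841 * (κ ^ 4 * s ^ 6) := by ring
  have h5 : (0 : ℝ) ≤ (κ : ℝ) ^ 4 * s ^ 6 := by positivity
  rw [h4]
  linarith

theorem NB_cross (a b : 𝓞 K) (p p' : ℤ) (ha : a + Q.cj a = p) (hb : b + Q.cj b = p')
    (h : p * Q.Y b = p' * Q.Y a) : Q.Y (a * Q.cj b) = 0 := by
  have h1 := Q.sub_cj (a * Q.cj b)
  rw [map_mul, QF.cj_cj] at h1
  have h2 := Q.sub_cj a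
  have h3 := Q.sub_cj b
  have h4 : ((p * Q.Y b : ℤ) : 𝓞 K) * (2 * Q.ω - Q.t) = ((p' * Q.Y a : ℤ) : 𝓞 K) *
      (2 * Q.ω - Q.t) := by rw [h]
  push_cast at h4
  rw [mul_assoc, mul_assoc, ← h3, ← h2, ← ha, ← hb] at h4
  have h5 : (2 : 𝓞 K) * ((Q.Y (a * Q.cj b) : 𝓞 K) * (2 * Q.ω - Q.t)) = 0 := by
    rw [← h1]
    linear_combination -h4
  rcases mul_eq_zero.1 h5 with h6 | h6
  · exact absurd h6 two_ne_zero
  rcases mul_eq_zero.1 h6 with h7 | h7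
  · exact_mod_cast h7
  · exact absurd h7 Q.delta_ne_zero

theorem NB_f (a b : 𝓞 K) (c : ℤ) (ha : c ∣ Q.Y a) (hb : c ∣ Q.Y b) :
    c ∣ Q.Y (a * Q.cj b) := by
  obtain ⟨x1, hx1⟩ := Q.exists_re a
  obtain ⟨w1, hw1⟩ := Q.exists_re b
  generalize Q.Y a = x2 at hx1 ha
  generalize Q.Y b = w2 at hw1 hb
  have e4 : Q.Y (a * Q.cj b) = x2 * w1 - x1 * w2 := by
    apply Q.Y_eq (x := x1 * w1 + Q.t * x1 * w2 - Q.k * x2 * w2)
    rw [hx1, hw1, Q.cj_form]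
    push_cast
    linear_combination (-(x2 : 𝓞 K) * w2) * Q.hω
  rw [e4]
  exact dvd_sub (ha.mul_right _) (hb.mul_left _)

theorem NB_mem (x c : 𝓞 K) (J : Ideal (𝓞 K)) (h : Ideal.span {x} = Ideal.span {c} * J) :
    c ∣ x := by
  have h4 : Ideal.span {c} ∣ Ideal.span {x} := ⟨J, h⟩
  exact Ideal.mem_span_singleton.1 (Ideal.dvd_span_singleton.1 h4)

theorem NB_dvd (E₁ E₂ : El Q κ s f) (F₁ : Fac E₁) (F₂ : Fac E₂) (ha : F₁.a = F₂.a)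
    (hB : F₁.B = F₂.B) : ∃ w : 𝓞 K, E₁.β * Q.cj E₂.β =
      ((F₁.Zg ^ 2 * F₁.Zb ^ 2 * F₁.Λb : ℤ) : 𝓞 K) * w := by
  have h1 : Ideal.span {E₁.β * Q.cj E₂.β} =
      Ideal.span {((F₁.Zg ^ 2 * F₁.Zb ^ 2 * F₁.Λb : ℤ) : 𝓞 K)} * (F₁.L * Q.bar F₂.L) := by
    have h2 : ((F₁.Zg ^ 2 * F₁.Zb ^ 2 * F₁.Λb : ℤ) : 𝓞 K) =
        (F₁.Zg : 𝓞 K) ^ 2 * ((F₁.Zb : 𝓞 K) ^ 2 * F₁.Λb) := by
      push_cast
      ring
    rw [h2, ← Ideal.span_singleton_mul_span_singleton, ← Ideal.span_singleton_mul_span_singleton,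
      ← Ideal.span_singleton_pow, ← F₁.na, ← F₁.nB, ← QF.bar_span, F₁.iβ, F₂.iβ, QF.bar_mul,
      QF.bar_mul, QF.bar_pow, ← ha, ← hB]
    ring
  exact NB_mem _ _ _ h1

theorem NB_cop (E : El Q κ s f) (F : Fac E) (fg : ℕ) (hfg : fg ∣ f)
    (h2 : Nat.Coprime fg F.Zb) : Nat.Coprime fg (F.Zg ^ 2 * F.Zb ^ 2 * F.Λb) := by
  have h3 : Nat.Coprime fg F.Zg := (F.cZ.symm.coprime_dvd_left hfg)
  have h4 : Nat.Coprime fg F.Λb := by
    apply Nat.coprime_of_dvd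
    intro q hq hq1 hq2
    have h5 : q ∣ f := hq1.trans hfg
    have h6 : (q : ℤ) ∣ E.Λ := by
      rw [F.hΛ]
      exact (Int.natCast_dvd_natCast.2 hq2).mul_right _
    have h7 := E.tup.bad' f Q.D rfl q hq h5 h6
    rw [F.hZ] at h7
    have h8 : q ∣ F.Zb * F.Zg := by exact_mod_cast h7
    rcases (Nat.Prime.dvd_mul hq).1 h8 with h9 | h9
    · exact Nat.not_coprime_of_dvd_of_dvd hq.one_lt hq1 h9 h2
    · exact Nat.not_coprime_of_dvd_of_dvd hq.one_lt h9 h5 F.cZ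
  exact Nat.Coprime.mul_right (Nat.Coprime.mul_right (h3.pow_right 2) (h2.pow_right 2)) h4

/-- `V ∣ Y(β_i cj β_j)` -/
theorem NB_V (E₁ E₂ : El Q κ s f) (F₁ : Fac E₁) (F₂ : Fac E₂) (ha : F₁.a = F₂.a)
    (hB : F₁.B = F₂.B) (fg : ℕ) (hfg : fg ∣ f) (h2 : Nat.Coprime fg F₁.Zb) :
    ((F₁.Zg ^ 2 * F₁.Zb ^ 2 * F₁.Λb * fg : ℕ) : ℤ) ∣ Q.Y (E₁.β * Q.cj E₂.β) := by
  obtain ⟨w, hw⟩ := NB_dvd E₁ E₂ F₁ F₂ ha hB
  have h3 : (fg : ℤ) ∣ Q.Y (E₁.β * Q.cj E₂.β) := by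
    apply NB_f
    · rw [E₁.Yβ]
      exact (Int.natCast_dvd_natCast.2 hfg).mul_right _
    · rw [E₂.Yβ]
      exact (Int.natCast_dvd_natCast.2 hfg).mul_right _
  rw [hw, QF.Y_int_mul] at h3 ⊢
  have h4 : IsCoprime (fg : ℤ) (F₁.Zg ^ 2 * F₁.Zb ^ 2 * F₁.Λb : ℤ) := by
    have h5 := Nat.isCoprime_iff_coprime.2 (NB_cop E₁ F₁ fg hfg h2)
    push_cast at h5
    exact h5
  obtain ⟨c, hc⟩ := h4.dvd_of_dvd_mul_left h3
  rw [hc]
  refine ⟨c, ?_⟩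
  push_cast
  ring

/-- NB (from DI, TW): the number of tuples for one `α` -/
theorem Part.num_beta (hneg : Q.D < 0) (hs : 1 ≤ s) (hκ : 100 * s ^ 2 ≤ κ) (hf : 1 ≤ f)
    {ι : Type} [Fintype ι] (p : Part Q κ s f ι) (hα : ∀ i j, (p.E i).α = (p.E j).α)
    (fb fg : ℕ) (h1 : f = fb * fg) (h2 : Nat.Coprime fg p.Zb) :
    (Fintype.card ι : ℝ) ≤ 2 * (2 + 142 * f / (p.Λb * fg)) := by
  classical
  rcases isEmpty_or_nonempty ι with hι | ⟨⟨i₀⟩⟩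
  · rw [Fintype.card_eq_zero]
    push_cast
    positivity
  have hfg : fg ∣ f := Dvd.intro_left fb h1.symm
  have hfg1 : 1 ≤ fg := Nat.pos_of_dvd_of_pos hfg hf
  have ha : ∀ i j, (p.F i).a = (p.F j).a := by
    intro i j
    have e1 := (p.F i).iα
    rw [hα i j, (p.F j).iα, p.hA i, p.hA j] at e1
    have hA0 : p.A ≠ ⊥ := by
      intro h
      have h3 := (p.F i).nA
      rw [p.hA i, h] at h3
      have h4 : (⊥ : Ideal (𝓞 K)) * Q.bar ⊥ = ⊥ := by simp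
      rw [h4] at h3
      have h5 := Ideal.span_singleton_eq_bot.1 h3.symm
      have h6 : (p.F i).Zb = 0 := by
        have := pow_eq_zero_iff (by norm_num : (5 : ℕ) ≠ 0) |>.1 h5
        exact_mod_cast this
      have h7 := (p.F i).hZ
      rw [h6] at h7
      exact (p.E i).tup.Z_ne (by simpa using h7)
    exact (pow_inj _ _ 5 (by norm_num) (mul_right_cancel₀ hA0 e1)).symm
  -- common data
  set E₀ := p.E i₀ with hE₀
  set F₀ := p.F i₀ with hF₀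
  have hZ0 : (F₀.Zb : ℤ) * F₀.Zg ≠ 0 := by
    rw [← F₀.hZ]
    exact E₀.tup.Z_ne
  have hZb0 : (F₀.Zb : ℤ) ≠ 0 := left_ne_zero_of_mul hZ0
  have hZg0 : (F₀.Zg : ℤ) ≠ 0 := right_ne_zero_of_mul hZ0
  have hZb1 : 1 ≤ F₀.Zb := Nat.one_le_iff_ne_zero.2 (by exact_mod_cast hZb0)
  have hZg1 : 1 ≤ F₀.Zg := Nat.one_le_iff_ne_zero.2 (by exact_mod_cast hZg0)
  have hΛb1 : 1 ≤ F₀.Λb := by
    refine Nat.one_le_iff_ne_zero.2 ?_
    intro h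
    have h3 := F₀.hΛ
    rw [h] at h3
    exact E₀.tup.Λ_ne (by simpa using h3)
  have hZg : ∀ i, (p.F i).Zg = F₀.Zg := by
    intro i
    have e1 : ((p.F i).Zb : ℤ) * (p.F i).Zg = (F₀.Zb : ℤ) * F₀.Zg := by
      rw [← (p.F i).hZ, ← F₀.hZ]
      exact TD_Z_eq _ _ (hα i i₀)
    rw [p.hZb i, ← p.hZb i₀] at e1
    have e2 := mul_left_cancel₀ hZb0 e1
    exact_mod_cast e2
  set V : ℕ := F₀.Zg ^ 2 * F₀.Zb ^ 2 * F₀.Λb * fg with hV
  have hV1 : 1 ≤ V := by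
    rw [hV]
    exact Nat.mul_pos (Nat.mul_pos (Nat.mul_pos (by positivity) (by positivity)) hΛb1) hfg1
  have hdiv : ∀ i j, (V : ℤ) ∣ Q.Y ((p.E i).β * Q.cj (p.E j).β) := by
    intro i j
    have h3 := NB_V (p.E i) (p.E j) (p.F i) (p.F j) (ha i j) (by rw [p.hB i, p.hB j]) fg hfg
      (by rw [p.hZb i]; exact h2)
    rw [hZg i, p.hZb i, ← p.hZb i₀, p.hΛb i, ← p.hΛb i₀] at h3
    exact h3
  -- traces and slopes
  have htr : ∀ i, ∃ e : ℤ, (p.E i).β + Q.cj (p.E i).β = e := by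
    intro i
    obtain ⟨e, he, -⟩ := Q.exists_trace (p.E i).β
    exact ⟨e, he⟩
  choose P hP using htr
  set φ : ι → ℚ := fun i => (P i : ℚ) / (p.E i).n with hφ
  have hn0 : ∀ i, ((p.E i).n : ℚ) ≠ 0 := by
    intro i
    have := (p.E i).tup.hn.pos
    positivity
  have hf0 : (f : ℤ) ≠ 0 := by positivity
  have hiff : ∀ i j, φ i = φ j ↔ Q.Y ((p.E i).β * Q.cj (p.E j).β) = 0 := by
    intro i j
    have h3 : φ i = φ j ↔ P i * ((p.E j).n : ℤ) = P j * (p.E i).n := by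
      simp only [hφ]
      rw [div_eq_div_iff (hn0 i) (hn0 j)]
      exact_mod_cast Iff.rfl
    rw [h3]
    constructor
    · intro h4
      apply NB_cross _ _ (P i) (P j) (hP i) (hP j)
      rw [(p.E i).Yβ, (p.E j).Yβ]
      linear_combination (f : ℤ) * h4
    · intro h4
      have h5 := TD_cross _ _ (P i) (P j) (hP i) (hP j) h4
      rw [(p.E i).Yβ, (p.E j).Yβ] at h5
      apply mul_left_cancel₀ hf0
      linarith
  -- the fibres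
  have hfib : ∀ a ∈ univ.image φ, (univ.filter (fun i => φ i = a)).card ≤ 2 := by
    intro a _
    have h3 := parallel_le hf hs hκ (ι := {i : ι // φ i = a}) (fun i => p.E i.1)
      (fun i j hij => Subtype.ext (p.inj _ _ hij)) (fun i j => hα _ _)
      (fun i j => (hiff _ _).1 (i.2.trans j.2.symm))
    rwa [Fintype.card_subtype] at h3
  have hcard : Fintype.card ι ≤ 2 * (univ.image φ).card :=
    Finset.card_le_mul_card_image univ 2 hfib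
  -- the directions
  have hrep : ∀ a : {a // a ∈ univ.image φ}, ∃ i, φ i = a.1 := by
    rintro ⟨a, ha⟩
    obtain ⟨i, -, hi⟩ := Finset.mem_image.1 ha
    exact ⟨i, hi⟩
  choose r hr using hrep
  set ρ : ℝ := ((F₀.Zg : ℝ) ^ 2 * F₀.Zb ^ 2) * (513 * κ ^ 2 * s ^ 2) with hρ
  have hρ0 : 0 ≤ ρ := by positivity
  have hdir := directions Q hneg (fun a => (p.E (r a)).β)
    (fun a => (p.E (r a)).Z ^ 2 * (p.E (r a)).Λ) V hV1 ρ hρ0
    (fun a => by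
      rw [(p.E (r a)).nβ]
      push_cast
      rfl)
    (fun a => by
      have h3 := (p.E (r a)).tup.L2
      have h4 : (((p.E (r a)).Λ : ℤ) : ℝ) ≤ 513 * (κ : ℝ) ^ 2 * s ^ 2 := by exact_mod_cast h3
      have h5 : (((p.E (r a)).Z : ℤ) : ℝ) = (F₀.Zb : ℝ) * F₀.Zg := by
        have h6 := (p.F (r a)).hZ
        rw [hZg, p.hZb, ← p.hZb i₀] at h6
        exact_mod_cast h6
      push_cast
      rw [h5, hρ]
      have h7 : (0 : ℝ) ≤ ((F₀.Zb : ℝ) * F₀.Zg) ^ 2 := by positivity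
      calc ((F₀.Zb : ℝ) * F₀.Zg) ^ 2 * ((p.E (r a)).Λ : ℝ)
          ≤ ((F₀.Zb : ℝ) * F₀.Zg) ^ 2 * (513 * (κ : ℝ) ^ 2 * s ^ 2) :=
            mul_le_mul_of_nonneg_left h4 h7
        _ = _ := by ring)
    (fun a b => hdiv _ _)
    (fun a b hab h => by
      apply hab
      have h3 := (hiff (r a) (r b)).2 h
      rw [hr, hr] at h3
      exact Subtype.ext h3)
  rw [Fintype.card_coe] at hdir
  -- numbers
  have hroot := NB_root E₀ hneg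
  have hD0 : (0 : ℝ) < √(-Q.D : ℝ) := by
    apply Real.sqrt_pos.2
    have : (Q.D : ℝ) < 0 := by exact_mod_cast hneg
    linarith
  have hκ1 : (1 : ℝ) ≤ κ := by exact_mod_cast E₀.tup.κ_pos
  have hs1 : (1 : ℝ) ≤ s := by exact_mod_cast hs
  have hfR : (1 : ℝ) ≤ f := by exact_mod_cast hf
  have hZbR : (1 : ℝ) ≤ F₀.Zb := by exact_mod_cast hZb1
  have hZgR : (1 : ℝ) ≤ F₀.Zg := by exact_mod_cast hZg1
  have hΛbR : (1 : ℝ) ≤ F₀.Λb := by exact_mod_cast hΛb1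
  have hfgR : (1 : ℝ) ≤ fg := by exact_mod_cast hfg1
  have hnum : 8 * ρ / (V * √(-Q.D : ℝ)) ≤ 142 * f / (F₀.Λb * fg) := by
    have hVR : (V : ℝ) = (F₀.Zg : ℝ) ^ 2 * F₀.Zb ^ 2 * F₀.Λb * fg := by
      rw [hV]
      push_cast
      ring
    have hW : (0 : ℝ) < (F₀.Zg : ℝ) ^ 2 * F₀.Zb ^ 2 := by positivity
    have e1 : 8 * ρ / (V * √(-Q.D : ℝ)) =
        4104 * (κ ^ 2 * s ^ 2) / (F₀.Λb * fg * √(-Q.D : ℝ)) := by
      rw [hVR, hρ, div_eq_div_iff (by positivity) (by positivity)]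
      ring
    rw [e1, div_le_div_iff₀ (by positivity) (by positivity)]
    have h3 : 4104 * ((κ : ℝ) ^ 2 * s ^ 2) ≤ 142 * (√(-Q.D : ℝ) * f) := by
      have h4 : (κ : ℝ) ^ 2 * s ^ 2 ≤ κ ^ 2 * s ^ 3 := by
        have : (s : ℝ) ^ 2 ≤ s ^ 3 := pow_le_pow_right₀ hs1 (by norm_num)
        exact mul_le_mul_of_nonneg_left this (by positivity)
      have h5 : (0 : ℝ) ≤ (κ : ℝ) ^ 2 * s ^ 2 := by positivity
      nlinarith
    calc 4104 * ((κ : ℝ) ^ 2 * s ^ 2) * (F₀.Λb * fg)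
        ≤ 142 * (√(-Q.D : ℝ) * f) * (F₀.Λb * fg) :=
          mul_le_mul_of_nonneg_right h3 (by positivity)
      _ = _ := by ring
  rw [p.hΛb i₀] at hnum
  have h5 : (Fintype.card ι : ℝ) ≤ 2 * ((univ.image φ).card : ℝ) := by exact_mod_cast hcard
  linarith

end Pool.Agent.helper28.LT
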