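import Pool.Agent.helper23.LT.NB
import Pool.Agent.helper58.LT.NA
import Pool.Agent.helper58.LT.NL
import Pool.Agent.helper3.FT.G1

set_option autoImplicit false

/-! # Module lt:PB -/

namespace Pool.Agent.helper28.LT

open Finset NumberField Pool.Agent.helper3.FT Pool.Agent.helper47.RA

variable {K : Type} [Field K] [NumberField K] {Q : QF K} {κ s f : ℕ}

theorem PB_rad_pos (a : ℕ) : 1 ≤ rad a := by
  unfold rad
  exact Finset.prod_pos fun p hp => (Nat.prime_of_mem_primeFactors hp).pos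

theorem PB_rad_dvd {a b : ℕ} (hb : b ≠ 0) (h : ∀ q : ℕ, q.Prime → q ∣ a → q ∣ b) :
    rad a ∣ b := by
  have h1 : a.primeFactors ⊆ b.primeFactors := by
    intro q hq
    have hq' := Nat.prime_of_mem_primeFactors hq
    exact Nat.mem_primeFactors.2 ⟨hq', h q hq' (Nat.dvd_of_mem_primeFactors hq), hb⟩
  unfold rad
  exact (Finset.prod_dvd_prod_of_subset _ _ _ h1).trans (Nat.prod_primeFactors_dvd b)

theorem PB_rad_mul {a b : ℕ} (h : Nat.Coprime a b) : rad (a * b) = rad a * rad b := by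
  unfold rad
  rw [h.primeFactors_mul, Finset.prod_union h.disjoint_primeFactors]

/-- a subfamily -/
def PB_restrict {ι : Type} (p : Part Q κ s f ι) (c : ι → Prop) :
    Part Q κ s f {i // c i} where
  E := fun i => p.E i.1
  F := fun i => p.F i.1
  inj := fun _ _ h => Subtype.ext (p.inj _ _ h)
  Zb := p.Zb
  Λb := p.Λb
  A := p.A
  B := p.B
  C := p.C
  hZb := fun i => p.hZb i.1
  hΛb := fun i => p.hΛb i.1
  hA := fun i => p.hA i.1
  hB := fun i => p.hB i.1
  hC := fun i => p.hC i.1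

/-- PB (from NA, NL, NB, TB1) -/
theorem Part.bound (hneg : Q.D < 0) (hs : 1 ≤ s) (hκ : 100 * s ^ 2 ≤ κ) (hf : 1 ≤ f)
    {ι : Type} [Fintype ι] (p : Part Q κ s f ι) :
    (Fintype.card ι : ℝ) ≤ 10 ^ 6 * 6 ^ f.primeFactors.card * (f / rad f) ^ 2 ∧
    (p.Zb = 1 → (Fintype.card ι : ℝ) ≤ 10 ^ 6 * 6 ^ f.primeFactors.card * (f / rad f)) := by
  classical
  rcases isEmpty_or_nonempty ι with hι | ⟨⟨i₀⟩⟩
  · rw [Fintype.card_eq_zero]
    push_cast
    exact ⟨by positivity, fun _ => by positivity⟩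
  have hκ1 : 1 ≤ κ := (p.E i₀).tup.κ_pos
  obtain ⟨fb, fg, h1, h2, h3⟩ := split_part p.Zb f hf
  obtain ⟨n, φ, hn, hφ⟩ := p.num_a hneg hs hκ1 hf fb fg h1 h2
  obtain ⟨ψ, hψ⟩ := p.num_alpha hneg
  have hfg : fg ∣ f := Dvd.intro_left fb h1.symm
  have hfb : fb ∣ f := Dvd.intro fg h1.symm
  have hfg1 : 1 ≤ fg := Nat.pos_of_dvd_of_pos hfg hf
  have hfb1 : 1 ≤ fb := Nat.pos_of_dvd_of_pos hfb hf
  have hZ0 : ((p.F i₀).Zb : ℤ) * (p.F i₀).Zg ≠ 0 := by
    rw [← (p.F i₀).hZ]
    exact (p.E i₀).tup.Z_ne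
  have hZb0 : p.Zb ≠ 0 := by
    have h4 := left_ne_zero_of_mul hZ0
    rw [p.hZb i₀] at h4
    exact_mod_cast h4
  have hΛb0 : p.Λb ≠ 0 := by
    intro h
    have h3 := (p.F i₀).hΛ
    rw [p.hΛb i₀, h] at h3
    exact (p.E i₀).tup.Λ_ne (by simpa using h3)
  -- radicals
  have hradZ : rad fb ∣ p.Zb := PB_rad_dvd hZb0 h3
  have hradΛ : rad fb ∣ p.Λb := by
    apply PB_rad_dvd hΛb0
    intro q hq hqf
    have h4 : (q : ℤ) ∣ (p.E i₀).Z := by
      rw [(p.F i₀).hZ, p.hZb i₀]
      exact (Int.natCast_dvd_natCast.2 (h3 q hq hqf)).mul_right _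
    have h5 := ((p.E i₀).tup.bad f Q.D rfl q hq (hqf.trans hfb) h4).2.2.1
    rw [(p.F i₀).hΛ, p.hΛb i₀] at h5
    have h6 : q ∣ p.Λb * (p.F i₀).Λg := by exact_mod_cast h5
    rcases (Nat.Prime.dvd_mul hq).1 h6 with h7 | h7
    · exact h7
    · exact absurd (p.F i₀).cΛ
        (Nat.not_coprime_of_dvd_of_dvd hq.one_lt h7 (hqf.trans hfb))
  have hcop : Nat.Coprime fb fg := by
    apply Nat.coprime_of_dvd
    intro q hq hq1 hq2
    exact Nat.not_coprime_of_dvd_of_dvd hq.one_lt hq2 (h3 q hq hq1) h2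
  have hrad : rad f = rad fb * rad fg := by
    rw [← PB_rad_mul hcop, ← h1]
  have hradfg : rad fg ∣ fg := PB_rad_dvd (by omega) fun _ _ h => h
  have hradf : rad f ∣ f := PB_rad_dvd (by omega) fun _ _ h => h
  -- real versions
  have hfR : (1 : ℝ) ≤ f := by exact_mod_cast hf
  have hradR : (1 : ℝ) ≤ rad f := by exact_mod_cast PB_rad_pos f
  have hfgR : (1 : ℝ) ≤ fg := by exact_mod_cast hfg1
  have hradfgR : (1 : ℝ) ≤ rad fg := by exact_mod_cast PB_rad_pos fg
  have hZbR : (1 : ℝ) ≤ p.Zb := by exact_mod_cast Nat.one_le_iff_ne_zero.2 hZb0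
  have hΛbR : (1 : ℝ) ≤ p.Λb := by exact_mod_cast Nat.one_le_iff_ne_zero.2 hΛb0
  set x : ℝ := (f : ℝ) / rad f with hx
  have hx1 : 1 ≤ x := by
    rw [hx, le_div_iff₀ (by linarith), one_mul]
    exact_mod_cast Nat.le_of_dvd hf hradf
  have hA : 2 + 36 * (f : ℝ) / (p.Zb * rad fg) ≤ 38 * x := by
    have h4 : (rad f : ℝ) ≤ p.Zb * rad fg := by
      rw [hrad]
      push_cast
      have : (rad fb : ℝ) ≤ p.Zb := by exact_mod_cast Nat.le_of_dvd (by omega) hradZ
      exact mul_le_mul_of_nonneg_right this (by linarith)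
    have h5 : 36 * (f : ℝ) / (p.Zb * rad fg) ≤ 36 * x := by
      rw [hx, mul_div_assoc]
      exact mul_le_mul_of_nonneg_left
        (div_le_div_of_nonneg_left (by linarith) (by linarith) h4) (by norm_num)
    linarith
  have hB : 2 + 142 * (f : ℝ) / (p.Λb * fg) ≤ 144 * x := by
    have h4 : (rad f : ℝ) ≤ p.Λb * fg := by
      rw [hrad]
      push_cast
      have e1 : (rad fb : ℝ) ≤ p.Λb := by exact_mod_cast Nat.le_of_dvd (by omega) hradΛ
      have e2 : (rad fg : ℝ) ≤ fg := by exact_mod_cast Nat.le_of_dvd (by omega) hradfg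
      exact mul_le_mul e1 e2 (by linarith) (by linarith)
    have h5 : 142 * (f : ℝ) / (p.Λb * fg) ≤ 142 * x := by
      rw [hx, mul_div_assoc]
      exact mul_le_mul_of_nonneg_left
        (div_le_div_of_nonneg_left (by linarith) (by linarith) h4) (by norm_num)
    linarith
  have hB' : p.Zb = 1 → 2 + 142 * (f : ℝ) / (p.Λb * fg) ≤ 144 := by
    intro hZ1
    have hfb' : fb = 1 := by
      by_contra hne
      obtain ⟨q, hq, hqf⟩ := Nat.exists_prime_and_dvd hne
      have h4 := h3 q hq hqf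
      rw [hZ1] at h4
      exact hq.one_lt.ne' (Nat.dvd_one.1 h4)
    have hff : (f : ℝ) = fg := by
      rw [hfb', one_mul] at h1
      exact_mod_cast h1
    have h5 : 142 * (f : ℝ) / (p.Λb * fg) ≤ 142 := by
      rw [hff, div_le_iff₀ (by positivity)]
      nlinarith
    linarith
  have hω : (6 : ℝ) ^ fg.primeFactors.card ≤ 6 ^ f.primeFactors.card :=
    pow_le_pow_right₀ (by norm_num)
      (Finset.card_le_card (Nat.primeFactors_mono hfg (by omega)))
  -- the fibres
  set M : ℝ := 2 * (2 + 142 * (f : ℝ) / (p.Λb * fg)) with hM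
  have hfib : ∀ c : Fin n × Fin 12,
      ((univ.filter (fun i => (φ i, ψ i) = c)).card : ℝ) ≤ M := by
    intro c
    have h4 := (PB_restrict p (fun i => (φ i, ψ i) = c)).num_beta hneg hs hκ hf (by
      rintro ⟨i, hi⟩ ⟨j, hj⟩
      have h5 := hi.trans hj.symm
      rw [Prod.mk.injEq] at h5
      exact hψ i j (hφ i j h5.1) h5.2) fb fg h1 h2
    rw [Fintype.card_subtype] at h4
    exact h4
  have hcard : (Fintype.card ι : ℝ) ≤ n * 12 * M := by
    have h4 : Fintype.card ι = ∑ c : Fin n × Fin 12,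
        (univ.filter (fun i => (φ i, ψ i) = c)).card := by
      rw [← Finset.card_univ]
      exact Finset.card_eq_sum_card_fiberwise fun i _ => Finset.mem_univ _
    rw [h4]
    push_cast
    calc ∑ c : Fin n × Fin 12, ((univ.filter (fun i => (φ i, ψ i) = c)).card : ℝ)
        ≤ ∑ _c : Fin n × Fin 12, M := Finset.sum_le_sum fun c _ => hfib c
      _ = n * 12 * M := by
        rw [Finset.sum_const, Finset.card_univ, Fintype.card_prod, Fintype.card_fin,
          Fintype.card_fin, nsmul_eq_mul]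
        push_cast
        ring
  have hM0 : 0 ≤ M := by positivity
  have hn' : (n : ℝ) ≤ 6 ^ f.primeFactors.card * (38 * x) := by
    refine hn.trans ?_
    exact mul_le_mul hω hA (by positivity) (by positivity)
  have h6 : (0 : ℝ) < 6 ^ f.primeFactors.card := by positivity
  constructor
  · have hM1 : M ≤ 288 * x := by
      rw [hM]
      linarith
    calc (Fintype.card ι : ℝ) ≤ n * 12 * M := hcard
      _ ≤ (6 ^ f.primeFactors.card * (38 * x)) * 12 * (288 * x) := by
        apply mul_le_mul _ hM1 hM0 (by positivity)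
        exact mul_le_mul_of_nonneg_right hn' (by norm_num)
      _ = 131328 * (6 ^ f.primeFactors.card * x ^ 2) := by ring
      _ ≤ 10 ^ 6 * (6 ^ f.primeFactors.card * x ^ 2) :=
        mul_le_mul_of_nonneg_right (by norm_num) (by positivity)
      _ = _ := by ring
  · intro hZ1
    have hM1 : M ≤ 288 := by
      have := hB' hZ1
      rw [hM]
      linarith
    calc (Fintype.card ι : ℝ) ≤ n * 12 * M := hcard
      _ ≤ (6 ^ f.primeFactors.card * (38 * x)) * 12 * 288 := by
        apply mul_le_mul _ hM1 hM0 (by positivity)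
        exact mul_le_mul_of_nonneg_right hn' (by norm_num)
      _ = 131328 * (6 ^ f.primeFactors.card * x) := by ring
      _ ≤ 10 ^ 6 * (6 ^ f.primeFactors.card * x) :=
        mul_le_mul_of_nonneg_right (by norm_num) (by positivity)
      _ = _ := by ring

end Pool.Agent.helper28.LT
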