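import Pool.Agent.helper28.LT.Base
import Pool.Agent.helper61.FT.A1

set_option autoImplicit false

/-! # Module lt:TD -/

namespace Pool.Agent.helper28.LT

open Finset NumberField Pool.Agent.helper3.FT Pool.Agent.helper47.RA

variable {K : Type} [Field K] [NumberField K] {Q : QF K} {κ s f : ℕ}

theorem TD_β_ne (E : El Q κ s f) : E.β ≠ 0 := by
  intro h
  have h1 := E.nβ
  rw [h, zero_mul] at h1
  have h2 : ((E.Z ^ 2 * E.Λ : ℤ) : 𝓞 K) = (0 : ℤ) := by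
    push_cast
    exact h1.symm
  have h3 := QF.int_inj h2
  rcases mul_eq_zero.1 h3 with h4 | h4
  · exact E.tup.Z_ne (pow_eq_zero_iff (two_ne_zero) |>.1 h4)
  · exact E.tup.Λ_ne h4

theorem TD_Z_eq (E₁ E₂ : El Q κ s f) (hα : E₁.α = E₂.α) : E₁.Z = E₂.Z := by
  have h1 : ((E₁.Z ^ 5 : ℤ) : 𝓞 K) = ((E₂.Z ^ 5 : ℤ) : 𝓞 K) := by
    push_cast
    rw [← E₁.nα, ← E₂.nα, hα]
  have h2 := QF.int_inj h1
  exact (Odd.strictMono_pow (by decide : Odd 5)).injective h2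

/-- TD: the tuple is determined by `α` and `β` -/
theorem El.determined (E₁ E₂ : El Q κ s f) (hf : 1 ≤ f) (hα : E₁.α = E₂.α) (hβ : E₁.β = E₂.β) :
    E₁.tpl = E₂.tpl := by
  have hf0 : (f : ℤ) ≠ 0 := by positivity
  have hn : E₁.n = E₂.n := by
    have h1 := E₁.Yβ
    rw [hβ, E₂.Yβ] at h1
    have := mul_left_cancel₀ hf0 h1
    exact_mod_cast this.symm
  have hZ := TD_Z_eq E₁ E₂ hα
  have hΛ : E₁.Λ = E₂.Λ := by
    have h1 : ((E₁.Z ^ 2 * E₁.Λ : ℤ) : 𝓞 K) = ((E₁.Z ^ 2 * E₂.Λ : ℤ) : 𝓞 K) := by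
      push_cast
      rw [← E₁.nβ, hZ, ← E₂.nβ, hβ]
    have h2 := QF.int_inj h1
    exact mul_left_cancel₀ (pow_ne_zero 2 E₁.tup.Z_ne) h2
  have hγ : E₁.γ = E₂.γ := by
    apply Q.cj.injective
    apply mul_left_cancel₀ (pow_ne_zero 2 (TD_β_ne E₁))
    rw [E₁.e3, hβ, E₂.e3, hΛ, hα]
  have hk : E₁.k = E₂.k := by
    have h1 := E₁.Yγ
    rw [hγ, E₂.Yγ] at h1
    have := mul_left_cancel₀ hf0 h1
    exact_mod_cast this.symm
  have h1 : E₁.Z * E₁.g - E₁.Λ * E₁.m = E₂.Z * E₂.g - E₂.Λ * E₂.m := by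
    apply QF.int_inj (K := K)
    rw [← E₁.trβ, ← E₂.trβ, hβ, hk]
  have h2 : E₁.Z * E₁.g + E₁.Λ * E₁.m = E₂.Z * E₂.g + E₂.Λ * E₂.m := by
    apply QF.int_inj (K := K)
    rw [← E₁.trγ, ← E₂.trγ, hγ, hn]
  rw [hZ, hΛ] at h1 h2
  have hg : E₁.g = E₂.g := by
    apply mul_left_cancel₀ E₂.tup.Z_ne
    linarith
  have hm : E₁.m = E₂.m := by
    apply mul_left_cancel₀ E₂.tup.Λ_ne
    linarith
  unfold El.tpl
  rw [hn, hk, hm, hg, hZ]

theorem TD_cross (a b : 𝓞 K) (p p' : ℤ) (ha : a + Q.cj a = p) (hb : b + Q.cj b = p')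
    (hY : Q.Y (a * Q.cj b) = 0) : p * Q.Y b = p' * Q.Y a := by
  have h1 := Q.sub_cj (a * Q.cj b)
  rw [hY, map_mul, QF.cj_cj, Int.cast_zero, zero_mul] at h1
  have h2 := Q.sub_cj a
  have h3 := Q.sub_cj b
  have h4 : ((p * Q.Y b : ℤ) : 𝓞 K) * (2 * Q.ω - Q.t) = ((p' * Q.Y a : ℤ) : 𝓞 K) *
      (2 * Q.ω - Q.t) := by
    push_cast
    rw [mul_assoc, mul_assoc, ← h3, ← h2, ← ha, ← hb]
    linear_combination (-2) * h1
  exact QF.int_inj (mul_right_cancel₀ Q.delta_ne_zero h4)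

theorem TD_disc (a : 𝓞 K) (p N : ℤ) (ha : a + Q.cj a = p) (hN : a * Q.cj a = N) :
    p ^ 2 - Q.Y a ^ 2 * Q.D = 4 * N := by
  have h2 := Q.sub_cj a
  have h3 := Q.delta_sq
  apply QF.int_inj (K := K)
  push_cast
  rw [← ha, ← hN, ← h3]
  linear_combination (Q.Y a * (2 * Q.ω - Q.t) + (a - Q.cj a)) * h2

theorem TD_dvd_Z (E : El Q κ s f) (p : ℤ) (hp : E.β + Q.cj E.β = p)
    (h : (E.n : ℤ) ∣ p) (h2 : 2 < E.n) : (E.n : ℤ) ∣ E.Z := by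
  have hpr : Prime (E.n : ℤ) := Nat.prime_iff_prime_int.1 E.tup.hn
  have h1 := TD_disc E.β p (E.Z ^ 2 * E.Λ) hp (by rw [E.nβ]; push_cast; rfl)
  rw [E.Yβ] at h1
  have h3 : (E.n : ℤ) ∣ 4 * (E.Z ^ 2 * E.Λ) := by
    rw [← h1]
    refine dvd_sub (dvd_pow h two_ne_zero) ?_
    exact Dvd.intro_left ((f : ℤ) ^ 2 * E.n * Q.D) (by ring)
  have h4 : ¬ (E.n : ℤ) ∣ 4 := by
    intro h5
    have h6 : E.n ∣ 2 ^ 2 := by exact_mod_cast h5
    have h7 := E.tup.hn.dvd_of_dvd_pow h6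
    have := Nat.le_of_dvd (by norm_num) h7
    omega
  have h5 := (hpr.dvd_or_dvd h3).resolve_left h4
  rcases hpr.dvd_or_dvd h5 with h6 | h6
  · exact hpr.dvd_of_dvd_pow h6
  · -- `n ∣ Λ`
    have h7 : (E.n : ℤ) ∣ E.g := by
      have h8 := E.tup.e3
      have h9 : (E.n : ℤ) ∣ E.g ^ 2 := by
        have := dvd_add h8 (h6.mul_right ((E.k : ℤ) ^ 2))
        simpa using this
      exact hpr.dvd_of_dvd_pow h9
    have h8 : (E.n : ℤ) ∣ E.Z * (E.k : ℤ) ^ 2 := by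
      have h9 := E.tup.e1
      have h10 : E.Z * (E.k : ℤ) ^ 2 = E.Λ * (E.n : ℤ) ^ 2 - E.m * E.g := by linarith
      rw [h10]
      exact dvd_sub (h6.mul_right _) (h7.mul_left _)
    rcases hpr.dvd_or_dvd h8 with h9 | h9
    · exact h9
    · exfalso
      have h10 := hpr.dvd_of_dvd_pow h9
      have h11 : E.n ∣ E.k := by exact_mod_cast h10
      exact E.tup.hnk ((Nat.prime_dvd_prime_iff_eq E.tup.hn E.tup.hk).1 h11)

theorem TD_pair (hf : 1 ≤ f) (E₁ E₂ : El Q κ s f) (hα : E₁.α = E₂.α)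
    (hβ : Q.Y (E₁.β * Q.cj E₂.β) = 0) :
    (E₁.n = E₂.n → E₁.tpl = E₂.tpl) ∧ (E₁.n ≠ E₂.n → 2 < E₁.n → (E₁.n : ℤ) ∣ E₁.Z) := by
  have hf0 : (f : ℤ) ≠ 0 := by positivity
  obtain ⟨p₁, hp₁, -⟩ := Q.exists_trace E₁.β
  obtain ⟨p₂, hp₂, -⟩ := Q.exists_trace E₂.β
  have h1 := TD_cross E₁.β E₂.β p₁ p₂ hp₁ hp₂ hβ
  rw [E₁.Yβ, E₂.Yβ] at h1
  have h2 : p₁ * E₂.n = p₂ * E₁.n := by
    apply mul_left_cancel₀ hf0
    linarith
  constructor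
  · intro hn
    refine El.determined E₁ E₂ hf hα ?_
    have hn0 : (E₂.n : ℤ) ≠ 0 := by
      have := E₂.tup.hn.pos
      positivity
    rw [hn] at h2
    have h3 := mul_right_cancel₀ hn0 h2
    have h4 := Q.sub_cj E₁.β
    have h5 := Q.sub_cj E₂.β
    rw [E₁.Yβ] at h4
    rw [E₂.Yβ] at h5
    rw [hn, ← h5] at h4
    have h6 : (2 : 𝓞 K) * E₁.β = 2 * E₂.β := by
      have h7 : E₁.β + Q.cj E₁.β = E₂.β + Q.cj E₂.β := by rw [hp₁, hp₂, h3]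
      linear_combination h4 + h7
    exact mul_left_cancel₀ two_ne_zero h6
  · intro hn h3
    refine TD_dvd_Z E₁ p₁ hp₁ ?_ h3
    have hpr : Prime (E₁.n : ℤ) := Nat.prime_iff_prime_int.1 E₁.tup.hn
    have h4 : (E₁.n : ℤ) ∣ p₁ * E₂.n := by
      rw [h2]
      exact dvd_mul_left _ _
    rcases hpr.dvd_or_dvd h4 with h5 | h5
    · exact h5
    · exfalso
      have h11 : E₁.n ∣ E₂.n := by exact_mod_cast h5
      exact hn ((Nat.prime_dvd_prime_iff_eq E₁.tup.hn E₂.tup.hn).1 h11)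

/-- TW (from TD): at most two tuples with the same `α` and parallel `β` -/
theorem parallel_le (hf : 1 ≤ f) (hs : 1 ≤ s) (hκ : 100 * s ^ 2 ≤ κ) {ι : Type} [Fintype ι]
    (E : ι → El Q κ s f) (hinj : ∀ i j, (E i).tpl = (E j).tpl → i = j)
    (hα : ∀ i j, (E i).α = (E j).α) (hβ : ∀ i j, Q.Y ((E i).β * Q.cj (E j).β) = 0) :
    Fintype.card ι ≤ 2 := by
  by_contra hcon
  push Not at hcon
  obtain ⟨i, j, l, hij, hil, hjl⟩ := Fintype.two_lt_card_iff.1 hcon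
  have hκ1 : 100 ≤ κ := le_trans (by nlinarith) hκ
  have hbig : ∀ i, 2 < (E i).n := by
    intro i
    have := (E i).tup.n1
    omega
  have hne : ∀ i j, i ≠ j → (E i).n ≠ (E j).n := by
    intro i j hij h
    exact hij (hinj i j ((TD_pair hf (E i) (E j) (hα i j) (hβ i j)).1 h))
  have hdv : ∀ a b, a ≠ b → (E a).n ∣ (E i).Z.natAbs := by
    intro a b hab
    have h1 := (TD_pair hf (E a) (E b) (hα a b) (hβ a b)).2 (hne a b hab) (hbig a)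
    rw [TD_Z_eq (E a) (E i) (hα a i)] at h1
    exact Int.natCast_dvd.1 h1
  have h1 := hdv i j hij
  have h2 := hdv j i hij.symm
  have h3 := hdv l i hil.symm
  have c12 : Nat.Coprime (E i).n (E j).n :=
    (Nat.coprime_primes (E i).tup.hn (E j).tup.hn).2 (hne i j hij)
  have c13 : Nat.Coprime (E i).n (E l).n :=
    (Nat.coprime_primes (E i).tup.hn (E l).tup.hn).2 (hne i l hil)
  have c23 : Nat.Coprime (E j).n (E l).n :=
    (Nat.coprime_primes (E j).tup.hn (E l).tup.hn).2 (hne j l hjl)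
  have h4 : (E i).n * (E j).n * (E l).n ∣ (E i).Z.natAbs :=
    Nat.Coprime.mul_dvd_of_dvd_of_dvd (Nat.Coprime.mul_left c13 c23)
      (Nat.Coprime.mul_dvd_of_dvd_of_dvd c12 h1 h2) h3
  have hZ0 : 0 < (E i).Z.natAbs := Int.natAbs_pos.2 (E i).tup.Z_ne
  have h5 := Nat.le_of_dvd hZ0 h4
  have h6 : (E i).Z.natAbs ≤ 128 * κ ^ 2 * s ^ 2 := by
    have h7 := (E i).tup.Z2
    have h8 := (E i).tup.Z_pos
    have h9 : (((E i).Z.natAbs : ℕ) : ℤ) = (E i).Z := Int.natAbs_of_nonneg h8.le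
    have h10 : (((E i).Z.natAbs : ℕ) : ℤ) ≤ ((128 * κ ^ 2 * s ^ 2 : ℕ) : ℤ) := by
      rw [h9]
      push_cast
      exact h7
    exact_mod_cast h10
  have h7 : (4 * κ) * (4 * κ) * (4 * κ) ≤ (E i).n * (E j).n * (E l).n :=
    Nat.mul_le_mul (Nat.mul_le_mul (E i).tup.n1.le (E j).tup.n1.le) (E l).tup.n1.le
  have h8 : 64 * κ ^ 3 ≤ 128 * κ ^ 2 * s ^ 2 := by
    calc 64 * κ ^ 3 = (4 * κ) * (4 * κ) * (4 * κ) := by ring
      _ ≤ _ := h7.trans (h5.trans h6)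
  have h9 : κ ^ 2 * (100 * s ^ 2) ≤ κ ^ 2 * κ := Nat.mul_le_mul_left _ hκ
  have h10 : 0 < κ ^ 2 * s ^ 2 := by positivity
  nlinarith

end Pool.Agent.helper28.LT
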